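import Mathlib
import Pool.Agent.Hhelper31.PC.Final

/-!
Every Lebesgue measurable plane set of finite measure can be contracted, with arbitrarily small loss
of area, onto a set that differs from a polygon by a Lebesgue null set.
-/

set_option autoImplicit false

namespace Pool.Agent.Results.MP_123306_an.PolygonModNull

open MeasureTheory Set

theorem result (A : Set (EuclideanSpace ℝ (Fin 2))) (hA : NullMeasurableSet A volume)
    (hfin : volume A < ⊤) (ε : ℝ) (hε : 0 < ε) :
    ∃ (f : EuclideanSpace ℝ (Fin 2) → EuclideanSpace ℝ (Fin 2))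
      (N : Set (EuclideanSpace ℝ (Fin 2))),
      (∀ x y, dist (f x) (f y) ≤ dist x y) ∧
      volume N = 0 ∧
      volume A ≤ volume (f '' A) + ENNReal.ofReal ε ∧
      ∃ T : Finset (EuclideanSpace ℝ (Fin 2) × EuclideanSpace ℝ (Fin 2)),
        frontier (symmDiff (f '' A) N) ⊆ ⋃ p ∈ T, segment ℝ p.1 p.2 := by
  obtain ⟨A', hA'A, hA'm, hA'e⟩ := hA.exists_measurable_subset_ae_eq
  have hvol : volume A' = volume A := measure_congr hA'e
  have hfin' : volume A' ≠ ⊤ := by rw [hvol]; exact hfin.ne
  obtain ⟨f, Q, hf, hQ, hlow, T, hT, hfr⟩ := Pool.Agent.Hhelper31.PC.main hA'm hfin' hε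
  have hnull : volume (A \ A') = 0 := (ae_le_set.1 hA'e.symm.le)
  refine ⟨f, symmDiff (f '' A) Q, fun x y => ?_, ?_, ?_, hT.toFinset, ?_⟩
  · have := hf.dist_le_mul x y
    simpa using this
  · have hsub : symmDiff (f '' A) Q ⊆ f '' (A \ A') ∪ ((f '' A' \ Q) ∪ (Q \ f '' A')) := by
      rintro y (⟨⟨x, hx, rfl⟩, hy⟩ | ⟨hy, hyn⟩)
      · by_cases hxA : x ∈ A'
        · exact Or.inr (Or.inl ⟨⟨x, hxA, rfl⟩, hy⟩)
        · exact Or.inl ⟨x, ⟨hx, hxA⟩, rfl⟩
      · exact Or.inr (Or.inr ⟨hy, fun h => hyn (image_mono hA'A h)⟩)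
    apply measure_mono_null hsub
    apply measure_union_null _ hQ
    have := Pool.Agent.Hhelper31.PC.volume_image_le_one hf (A \ A')
    rw [hnull] at this
    exact le_antisymm this zero_le
  · have h1 : volume (f '' A') ≠ ⊤ :=
      ((Pool.Agent.Hhelper31.PC.volume_image_le_one hf A').trans_lt (lt_top_iff_ne_top.2 hfin')).ne
    calc volume A = ENNReal.ofReal (volume.real A') := by
          rw [Measure.real, ENNReal.ofReal_toReal hfin', hvol]
      _ ≤ ENNReal.ofReal (volume.real (f '' A') + ε) := by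
          apply ENNReal.ofReal_le_ofReal; linarith
      _ = volume (f '' A') + ENNReal.ofReal ε := by
          rw [ENNReal.ofReal_add measureReal_nonneg hε.le, Measure.real, ENNReal.ofReal_toReal h1]
      _ ≤ volume (f '' A) + ENNReal.ofReal ε := by
          gcongr
  · rw [symmDiff_symmDiff_cancel_left]
    simpa using hfr

end Pool.Agent.Results.MP_123306_an.PolygonModNull
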